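import Pool.Agent.H79.LS.Tb

/-!
# [H79 AS TB] The rough families in boxes and at the beginning, at all scales

`totalBS`: `totalB` for boxes of intervals of length between `V ^ (1/2)` and `V ^ 2`, `V ≥ V0` independent of `x` (`mean_box` at
`exp V`). `headS`: the sum over the `N ≤ θ x` is at most `C θ x (L / log x) ^ (card ι)` (`mom_fac` at `Y = ⌊θ x⌋`).
-/

set_option autoImplicit false

namespace Pool.Agent.H79.AS

open Finset Filter Pool.Agent.H21.MT Pool.Agent.H92.MM Pool.Agent.H61.UN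

open Classical in
/-- `mom_box` at all scales -/
private theorem mom_boxS (ι : Type) [Fintype ι] [DecidableEq ι] [Nonempty ι] (a : ℝ) (ha : 0 < a) :
    ∃ C V0 : ℝ, 0 < C ∧ ∀ᶠ x : ℝ in atTop, ∀ V : ℝ, V0 ≤ V → ∀ I : ι → Finset ℕ,
      Pool.Agent.H79.LS.BoxAt (Real.exp V) I → ∀ Y : ℕ, Real.sqrt x ≤ (Y : ℝ) →
      ∑ N ∈ Ioc 0 Y, (((Fintype.piFinset I).filter (fun h => Function.Injective h ∧
        ∀ i, Rgh (x ^ a) (N + h i))).card : ℝ) ≤
        C * (∏ k, ((I k).card : ℝ)) / Real.log x ^ Fintype.card ι * Y := by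
  obtain ⟨C1, hC1, h1⟩ := rough_count ι a ha
  obtain ⟨C2, hC2, h2⟩ := Pool.Agent.H79.LS.mean_box ι (2 * Fintype.card ι)
  obtain ⟨V0, hV0⟩ := eventually_atTop.1 (Real.tendsto_exp_atTop.eventually h2)
  refine ⟨C1 * C2, V0, mul_pos hC1 hC2, ?_⟩
  filter_upwards [h1, eventually_gt_atTop (1 : ℝ)] with x hx hx1 V hV I hI Y hY
  have hx2 := hV0 V hV
  have hlog : 0 < Real.log x := Real.log_pos hx1
  have e1 : ∑ N ∈ Ioc 0 Y, (((Fintype.piFinset I).filter (fun h => Function.Injective h ∧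
        ∀ i, Rgh (x ^ a) (N + h i))).card : ℝ) =
      ∑ h ∈ (Fintype.piFinset I).filter Function.Injective,
        (((Ioc 0 Y).filter (fun N => ∀ i, Rgh (x ^ a) (N + h i))).card : ℝ) := by
    have e2 : ∀ N ∈ Ioc 0 Y, (((Fintype.piFinset I).filter (fun h => Function.Injective h ∧
        ∀ i, Rgh (x ^ a) (N + h i))).card : ℝ) =
        ∑ h ∈ (Fintype.piFinset I).filter Function.Injective,
          if (∀ i, Rgh (x ^ a) (N + h i)) then (1 : ℝ) else 0 := by
      intro N _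
      rw [← filter_filter, sum_boole]
    rw [sum_congr rfl e2, sum_comm]
    refine sum_congr rfl (fun h _ => ?_)
    rw [sum_boole]
  rw [e1]
  calc ∑ h ∈ (Fintype.piFinset I).filter Function.Injective,
        (((Ioc 0 Y).filter (fun N => ∀ i, Rgh (x ^ a) (N + h i))).card : ℝ)
      ≤ ∑ h ∈ (Fintype.piFinset I).filter Function.Injective,
        C1 * Y * gf (dd h) ^ (2 * Fintype.card ι) / Real.log x ^ Fintype.card ι := by
        refine sum_le_sum (fun h hh => ?_)
        exact hx h (mem_filter.1 hh).2 Y hY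
    _ = C1 * Y / Real.log x ^ Fintype.card ι *
          ∑ h ∈ (Fintype.piFinset I).filter Function.Injective,
            gf (dd h) ^ (2 * Fintype.card ι) := by
        rw [mul_sum]
        refine sum_congr rfl (fun h _ => ?_)
        ring
    _ ≤ C1 * Y / Real.log x ^ Fintype.card ι * (C2 * ∏ k, ((I k).card : ℝ)) := by
        refine mul_le_mul_of_nonneg_left (hx2 I hI) ?_
        positivity
    _ = C1 * C2 * (∏ k, ((I k).card : ℝ)) / Real.log x ^ Fintype.card ι * Y := by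
        ring

open Classical in
/-- **the box version of `total` at all scales** -/
theorem totalBS (ι : Type) [Fintype ι] [DecidableEq ι] [Nonempty ι] (a : ℝ) (ha : 0 < a) :
    ∃ C V0 : ℝ, 0 < C ∧ ∀ᶠ x : ℝ in atTop, ∀ V : ℝ, V0 ≤ V → ∀ (L : ℕ) (I : ι → Finset ℕ),
      Pool.Agent.H79.LS.BoxAt (Real.exp V) I →
      ∑ N ∈ Tx x, gw x N * (((RJ ι x a L N).filter (fun h => ∀ j, h j ∈ I j)).card : ℝ) ≤
        C * x * (∏ k, ((I k).card : ℝ)) / Real.log x ^ Fintype.card ι := by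
  obtain ⟨C, V0, hC, hm⟩ := mom_boxS ι a ha
  refine ⟨(4 * Real.exp (9 / 2) + 1) * C, V0, by positivity, ?_⟩
  filter_upwards [hm, eventually_ge_atTop (4 : ℝ)] with x hx hx4 V hV L I hI
  have hlog : 0 < Real.log x := Real.log_pos (by linarith)
  have h1 := Pool.Agent.H79.LS.gauss_gen x hx4 (fun N => (((Fintype.piFinset I).filter
        (fun h => Function.Injective h ∧ ∀ i, Rgh (x ^ a) (N + h i))).card : ℝ))
    (fun N => Nat.cast_nonneg _)
    (C * (∏ k, ((I k).card : ℝ)) / Real.log x ^ Fintype.card ι) (by positivity) (hx V hV I hI)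
  refine le_trans (sum_le_sum fun N _ => ?_) (h1.trans (le_of_eq (by ring)))
  refine mul_le_mul_of_nonneg_left ?_ (gw_pos x N).le
  have h2 : ((RJ ι x a L N).filter (fun h => ∀ j, h j ∈ I j)).card ≤
      ((Fintype.piFinset I).filter (fun h => Function.Injective h ∧
        ∀ i, Rgh (x ^ a) (N + h i))).card := by
    refine card_le_card fun h hh => ?_
    rw [mem_filter, mem_RJ] at hh
    rw [mem_filter, Fintype.mem_piFinset]
    exact ⟨hh.2, hh.1.1.2, hh.1.2⟩
  exact_mod_cast h2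

/-- **the beginning** -/
theorem headS (ι : Type) [Fintype ι] [DecidableEq ι] [Nonempty ι] (a : ℝ) (ha : 0 < a) :
    ∃ C : ℝ, 0 < C ∧ ∀ θ : ℝ, 0 < θ → ∀ᶠ x : ℝ in atTop, ∀ L : ℕ, 1 ≤ L →
      ∑ N ∈ (Tx x).filter (fun N : ℕ => (N : ℝ) ≤ θ * x), gw x N * ((RJ ι x a L N).card : ℝ) ≤
        C * θ * x * ((L : ℝ) / Real.log x) ^ Fintype.card ι := by
  obtain ⟨C, hC, hm⟩ := mom_fac ι a ha
  refine ⟨C, hC, fun θ hθ => ?_⟩
  filter_upwards [hm, eventually_ge_atTop (1 : ℝ), eventually_ge_atTop ((2 / θ) ^ 2)]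
    with x hx hx1 hx2 L hL
  have hx0 : 0 < x := by linarith
  have hs : 2 / θ ≤ Real.sqrt x := Real.le_sqrt_of_sq_le hx2
  have hs1 : 1 ≤ Real.sqrt x := by
    rw [Real.one_le_sqrt]
    exact hx1
  have hss := Real.mul_self_sqrt hx0.le
  have hθx : 2 * Real.sqrt x ≤ θ * x := by
    rw [div_le_iff₀ hθ] at hs
    have h3 := mul_le_mul_of_nonneg_right hs (Real.sqrt_nonneg x)
    calc 2 * Real.sqrt x ≤ Real.sqrt x * θ * Real.sqrt x := h3
      _ = θ * (Real.sqrt x * Real.sqrt x) := by ring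
      _ = θ * x := by rw [hss]
  have hfl : Real.sqrt x ≤ (⌊θ * x⌋₊ : ℝ) := by
    have h1 := Nat.lt_floor_add_one (θ * x)
    linarith
  have h1 := hx L hL ⌊θ * x⌋₊ hfl
  have hlog : 0 ≤ Real.log x := Real.log_nonneg hx1
  calc ∑ N ∈ (Tx x).filter (fun N : ℕ => (N : ℝ) ≤ θ * x), gw x N * ((RJ ι x a L N).card : ℝ)
      ≤ ∑ N ∈ (Tx x).filter (fun N : ℕ => (N : ℝ) ≤ θ * x), ((RJ ι x a L N).card : ℝ) := by
        refine sum_le_sum fun N _ => ?_
        refine mul_le_of_le_one_left (Nat.cast_nonneg _) ?_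
        unfold gw
        rw [Real.exp_le_one_iff]
        have := sq_nonneg (Real.log (N / x))
        linarith
    _ ≤ ∑ N ∈ Ioc 0 ⌊θ * x⌋₊, ((RJ ι x a L N).card : ℝ) := by
        apply sum_le_sum_of_subset_of_nonneg
        · intro N hN
          rw [mem_filter] at hN
          have h2 := hN.1
          unfold Tx at h2
          rw [mem_Ioc] at h2
          rw [mem_Ioc]
          exact ⟨by omega, Nat.le_floor hN.2⟩
        · exact fun _ _ _ => Nat.cast_nonneg _
    _ ≤ C * (⌊θ * x⌋₊ : ℝ) * ((L : ℝ) / Real.log x) ^ Fintype.card ι := h1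
    _ ≤ C * (θ * x) * ((L : ℝ) / Real.log x) ^ Fintype.card ι := by
        refine mul_le_mul_of_nonneg_right ?_ (by positivity)
        exact mul_le_mul_of_nonneg_left (Nat.floor_le (by positivity)) hC.le
    _ = C * θ * x * ((L : ℝ) / Real.log x) ^ Fintype.card ι := by ring

end Pool.Agent.H79.AS
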